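import Mathlib
import Pool.Agent.Lib.MP_6bc78b_nt.MS.Top
import Pool.Agent.Lib.MP_6bc78b_nt.LS.Bilin

/-! Project MS (MP_6bc78b_nt), Part II: definitions and the statements of the modules of board
ms2_modules. Proofs in Paper.md. -/

set_option autoImplicit false

open Filter Topology ArithmeticFunction

namespace Pool.Agent.Lib.MP_6bc78b_nt.MS.P2

open Pool.Agent.Lib.MP_6bc78b_nt.LS (primSum)

/-- The number of divisors, as a real number. -/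
noncomputable def dv (n : ℕ) : ℝ := (n.divisors.card : ℝ)

/-- The weight `(log r)^j G(r)`. -/
noncomputable def wt (j : ℕ) (T r : ℝ) : ℝ := Real.log r ^ j * GG T r

/-- `a` restricted to `n ≤ z`. -/
noncomputable def lo (z : ℝ) (a : ArithmeticFunction ℝ) : ArithmeticFunction ℝ :=
  ⟨fun n => if (n : ℝ) ≤ z then a n else 0, by simp⟩

/-- `a` restricted to `n > z`. -/
noncomputable def hi (z : ℝ) (a : ArithmeticFunction ℝ) : ArithmeticFunction ℝ :=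
  ⟨fun n => if z < (n : ℝ) then a n else 0, by simp⟩

/-- The Moebius function as a real arithmetic function. -/
noncomputable def mu : ArithmeticFunction ℝ := ((ArithmeticFunction.moebius : ArithmeticFunction ℤ) : ArithmeticFunction ℝ)

/-- The character sum over `n ≤ T^2`, `d ∣ n`. -/
noncomputable def VV (j : ℕ) (T : ℝ) (α : ArithmeticFunction ℝ) (m d : ℕ) {q : ℕ}
    (ψ : DirichletCharacter ℂ q) : ℂ :=
  ∑ n ∈ (Finset.Icc 1 ⌊T ^ 2⌋₊).filter (fun n => d ∣ n),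
    ((α n * wt j T ((n : ℝ) / m) : ℝ) : ℂ) * ψ (n : ZMod q)

/-- Sum of the character sums over the conductors `q ∈ S`. -/
noncomputable def QQ (j : ℕ) (T : ℝ) (α : ArithmeticFunction ℝ) (s d : ℕ) (S : Finset ℕ) : ℝ :=
  ∑ q ∈ S, 1 / (Real.sqrt q * (q.totient : ℝ)) * primSum q (fun ψ => ‖VV j T α (q * s) d ψ‖)

/-- The total of the conductors `a < q ≤ b`. -/
noncomputable def EE (th : ℝ) (j : ℕ) (T : ℝ) (a b : ℕ) (α : ArithmeticFunction ℝ) : ℝ :=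
  ∑ s ∈ (Finset.Icc 1 ⌊T ^ th⌋₊).filter Squarefree, 1 / ((s : ℝ) * (s.totient : ℝ)) *
    ∑ d ∈ s.divisors, (d : ℝ) *
      QQ j T α s d ((Finset.Ioc a b).filter (fun q => ((q * s : ℕ) : ℝ) ≤ T ^ th))

/-- Divisor-bounded families. -/
def DB (a : ℝ → ArithmeticFunction ℝ) : Prop :=
  ∃ K : ℕ, ∀ T : ℝ, 3 ≤ T → ∀ n : ℕ, (n : ℝ) ≤ T ^ 2 →
    |a T n| ≤ (K : ℝ) * Real.log T ^ K * dv n ^ K

/-- The contribution of the large conductors is `o(T)`. -/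
def Est (th : ℝ) (j : ℕ) (a : ℝ → ArithmeticFunction ℝ) : Prop :=
  ∃ A0 : ℕ, ∀ A : ℕ, A0 ≤ A →
    Tendsto (fun T : ℝ => EE th j T ⌊Real.log T ^ A⌋₊ ⌊T ^ th⌋₊ (a T) / T) atTop (𝓝 0)

/-! ### Elementary tools -/

/-- DIV: divisor sums. -/
def DivStatement : Prop :=
  (∀ a b : ℕ, dv (a * b) ≤ dv a * dv b) ∧
  (∀ n : ℕ, 1 ≤ n → (n : ℝ) / n.totient ≤ dv n) ∧
  (∀ k N : ℕ, 1 ≤ N → ∑ n ∈ Finset.Icc 1 N, dv n ^ k / n ≤ (1 + Real.log N) ^ (2 ^ k)) ∧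
  (∀ k N : ℕ, 1 ≤ N → ∑ n ∈ Finset.Icc 1 N, dv n ^ k / n.totient ≤
    (1 + Real.log N) ^ (2 ^ (k + 1))) ∧
  (∀ k d N : ℕ, 1 ≤ N → ∑ n ∈ Finset.Icc 1 N, dv (d * n) ^ k ≤
    dv d ^ k * N * (1 + Real.log N) ^ (2 ^ k))

/-- DBC: closure properties of `DB`. -/
def DbcStatement : Prop :=
  (∀ a b, DB a → DB b → DB (fun T => a T + b T)) ∧
  (∀ a b, DB a → DB b → DB (fun T => a T - b T)) ∧
  (∀ a b, DB a → DB b → DB (fun T => a T * b T)) ∧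
  (∀ (z : ℝ → ℝ) (a : ℝ → ArithmeticFunction ℝ), DB a →
    DB (fun T => lo (z T) (a T)) ∧ DB (fun T => hi (z T) (a T))) ∧
  DB (fun _ => 1) ∧ DB (fun _ => one) ∧ DB (fun _ => lg) ∧ DB (fun _ => La) ∧ DB (fun _ => mu) ∧
  (∀ th c1 c2 : ℝ, 0 < th → DB (bet th c1 c2)) ∧ (∀ lam : ℝ, 0 < lam → DB (bb lam))

/-- POL: crude bound, for all n. -/
def PolStatement : Prop := ∀ th lam c1 c2 : ℝ, 0 < th → 0 < lam →
  ∀ α : ℝ → ArithmeticFunction ℝ, IsAl th lam c1 c2 α →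
    ∃ C : ℝ, ∀ T : ℝ, 3 ≤ T → ∀ n : ℕ, |α T n| ≤ C * (n : ℝ) ^ 10

/-- VAU: Vaughan's identity. -/
def VauStatement : Prop := ∀ z : ℝ,
  La = lo z La + lo z mu * lg - lo z mu * lo z La * one + hi z mu * hi z La * one

/-- SPL: splitting the condition `d ∣ n` over a convolution. -/
def SplStatement : Prop := ∀ d N : ℕ, 1 ≤ d → ∀ (u v : ArithmeticFunction ℝ) (F : ℕ → ℂ),
  ∑ n ∈ (Finset.Icc 1 N).filter (fun n => d ∣ n), (((u * v) n : ℝ) : ℂ) * F n =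
  ∑ d1 ∈ d.divisors, ∑ x ∈ (Finset.Icc 1 N).filter (fun x => Nat.Coprime x (d / d1)),
    ∑ z ∈ (Finset.Icc 1 N).filter (fun z => d * x * z ≤ N),
      ((u (d1 * x) : ℝ) : ℂ) * ((v (d / d1 * z) : ℝ) : ℂ) * F (d * x * z)

/-- ABL: partial summation in one and in two variables. -/
def AblStatement : Prop :=
  (∀ (a b : ℕ) (F : ℕ → ℂ) (g : ℕ → ℝ),
    ‖∑ x ∈ Finset.Ioc a b, F x * (g x : ℂ)‖ ≤
      ‖∑ y ∈ Finset.Ioc a b, F y‖ * |g (b + 1)| +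
      ∑ x ∈ Finset.Ioc a b, ‖∑ y ∈ Finset.Ioc a x, F y‖ * |g (x + 1) - g x|) ∧
  (∀ (a b a' b' : ℕ) (F G : ℕ → ℂ) (W : ℕ → ℕ → ℝ),
    ‖∑ x ∈ Finset.Ioc a b, ∑ z ∈ Finset.Ioc a' b', F x * G z * (W x z : ℂ)‖ ≤
      ‖∑ y ∈ Finset.Ioc a b, F y‖ * ‖∑ y ∈ Finset.Ioc a' b', G y‖ * |W (b + 1) (b' + 1)| +
      ∑ z ∈ Finset.Ioc a' b', ‖∑ y ∈ Finset.Ioc a b, F y‖ * ‖∑ y ∈ Finset.Ioc a' z, G y‖ *
        |W (b + 1) (z + 1) - W (b + 1) z| +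
      ∑ x ∈ Finset.Ioc a b, ‖∑ y ∈ Finset.Ioc a x, F y‖ * ‖∑ y ∈ Finset.Ioc a' b', G y‖ *
        |W (x + 1) (b' + 1) - W x (b' + 1)| +
      ∑ x ∈ Finset.Ioc a b, ∑ z ∈ Finset.Ioc a' b',
        ‖∑ y ∈ Finset.Ioc a x, F y‖ * ‖∑ y ∈ Finset.Ioc a' z, G y‖ *
          |W (x + 1) (z + 1) - W (x + 1) z - W x (z + 1) + W x z|)

/-- WTD: size and differences of the weight, near `r = T`. -/
def WtdStatement : Prop := ∀ j : ℕ, ∃ (C : ℝ) (M : ℕ), 0 < C ∧ ∀ᶠ T : ℝ in atTop,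
  (∀ r : ℝ, T / 1000 ≤ r → r ≤ 1000 * T → |wt j T r| ≤ C * Real.log T ^ M) ∧
  (∀ (c : ℝ) (x : ℕ), 0 < c → 1 ≤ x → T / 1000 ≤ c * x → c * (x + 1) ≤ 1000 * T →
    |wt j T (c * (x + 1)) - wt j T (c * x)| ≤ C * Real.log T ^ M / x) ∧
  (∀ (c : ℝ) (x z : ℕ), 0 < c → 1 ≤ x → 1 ≤ z → T / 1000 ≤ c * x * z →
    c * (x + 1) * (z + 1) ≤ 1000 * T →
    |wt j T (c * (x + 1) * (z + 1)) - wt j T (c * (x + 1) * z) - wt j T (c * x * (z + 1)) +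
      wt j T (c * x * z)| ≤ C * Real.log T ^ M / (x * z))

/-- WTT: the weight away from `r = T`. -/
def WttStatement : Prop := ∀ j N : ℕ, ∀ᶠ T : ℝ in atTop,
  (∀ r : ℝ, 1 / T ≤ r → r ≤ T / 16 → |wt j T r| ≤ 1 / T ^ N) ∧
  (∀ r : ℝ, T / 2 ≤ r → |wt j T r| ≤ 1 / r ^ N)

/-- WTV: total variation of the weight. -/
def WtvStatement : Prop := ∀ j : ℕ, ∃ (C : ℝ) (M : ℕ), 0 < C ∧ ∀ᶠ T : ℝ in atTop,
  ∀ c : ℝ, 1 / T ≤ c → ∀ N : ℕ, (N : ℝ) ≤ 2 * T ^ 2 →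
    (∀ x : ℕ, 1 ≤ x → |wt j T (c * x)| ≤ C * Real.log T ^ M) ∧
    ∑ x ∈ Finset.Icc 1 N, |wt j T (c * (x + 1)) - wt j T (c * x)| ≤ C * Real.log T ^ M

/-- PVC: Polya-Vinogradov with a coprimality condition. -/
def PvcStatement : Prop := ∀ q : ℕ, 1 < q → ∀ ψ : DirichletCharacter ℂ q, ψ.IsPrimitive →
  ∀ N e : ℕ, 1 ≤ e →
    ‖∑ x ∈ (Finset.Icc 1 N).filter (fun x => Nat.Coprime x e), ψ (x : ZMod q)‖ ≤
      dv e * (Real.sqrt q * (1 + Real.log q))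

/-! ### Large conductors -/

/-- BLK: one dyadic block. -/
def BlkStatement : Prop := ∀ th : ℝ, 0 < th → th < 1 / 2 → ∀ j K : ℕ,
  ∃ (C : ℝ) (M : ℕ), 0 < C ∧ ∀ᶠ T : ℝ in atTop,
    ∀ Q s d U V : ℕ, 1 ≤ Q → 1 ≤ s → d ∣ s → 1 ≤ U → 1 ≤ V → ((Q * s : ℕ) : ℝ) ≤ T ^ th →
      ((Q * s : ℕ) : ℝ) * T / 100 ≤ ((U * V : ℕ) : ℝ) →
      ((U * V : ℕ) : ℝ) ≤ 2 * (((Q * s : ℕ) : ℝ) * T) →
      ∀ u v : ArithmeticFunction ℝ,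
        (∀ n : ℕ, u n ≠ 0 → U ≤ n ∧ n < 2 * U) → (∀ n : ℕ, |u n| ≤ Real.log T ^ K * dv n ^ K) →
        (∀ n : ℕ, v n ≠ 0 → V ≤ n ∧ n < 2 * V) → (∀ n : ℕ, |v n| ≤ Real.log T ^ K * dv n ^ K) →
        QQ j T (u * v) s d (Finset.Ioc Q (2 * Q)) ≤
          C * Real.log T ^ M * dv s ^ M * ∑ d1 ∈ d.divisors,
            1 / ((Q : ℝ) * Real.sqrt Q) * Real.sqrt (((Q : ℝ) ^ 2 + (U : ℝ) / d1) *
              ((Q : ℝ) ^ 2 + (V : ℝ) / ((d / d1 : ℕ) : ℝ)) * ((U : ℝ) * V / d))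

/-- BIL: bilinear families. -/
def BilStatement : Prop := ∀ th ze xi : ℝ, 0 < th → th < 1 / 2 → th < ze → xi < 1 → ∀ j : ℕ,
  ∀ u v : ℝ → ArithmeticFunction ℝ, DB u → DB v →
    (∀ T : ℝ, 3 ≤ T → ∀ n : ℕ, u T n ≠ 0 → T ^ ze < n ∧ (n : ℝ) ≤ T ^ xi) →
      Est th j (fun T => u T * v T)

/-- SMO: a long smooth variable. -/
def SmoStatement : Prop := ∀ th xi : ℝ, 0 < th → th < 1 / 2 → 2 * th < xi → ∀ j : ℕ,
  ∀ a : ℝ → ArithmeticFunction ℝ, DB a → ∀ h : ArithmeticFunction ℝ, (h = one ∨ h = lg) →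
    Est th j (fun T => a T * hi (T ^ xi) h)

/-- EDG: supports outside the essential range. -/
def EdgStatement : Prop := ∀ th xi : ℝ, 0 < th → th < 1 / 2 → ∀ j : ℕ,
  ∀ a : ℝ → ArithmeticFunction ℝ, DB a →
    ((xi < 1 ∧ ∀ T : ℝ, 3 ≤ T → ∀ n : ℕ, a T n ≠ 0 → (n : ℝ) ≤ T ^ xi) ∨
      (1 + th < xi ∧ ∀ T : ℝ, 3 ≤ T → ∀ n : ℕ, a T n ≠ 0 → T ^ xi < n)) → Est th j a

/-- DEC: the large conductors. -/
def DecStatement : Prop := ∀ th lam c1 c2 : ℝ, 0 < th → th < 1 / 2 → 0 < lam → lam < 1 →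
  ∀ α : ℝ → ArithmeticFunction ℝ, IsAl th lam c1 c2 α → ∀ j : ℕ, Est th j α

/-! ### Small conductors -/

/-- Trivial bound. -/
def Tb (ρ : ArithmeticFunction ℝ) : Prop := ∃ K : ℕ, ∀ n : ℕ,
  |ρ n| ≤ (K : ℝ) * (1 + Real.log n) ^ K * dv n ^ K

/-- Cancellation in character sums to small conductors. -/
def Reg (ρ : ArithmeticFunction ℝ) : Prop := ∃ K : ℕ, ∀ A B H : ℕ, ∀ᶠ x : ℝ in atTop,
  ∀ q : ℕ, 2 ≤ q → (q : ℝ) ≤ Real.log x ^ A → ∀ ψ : DirichletCharacter ℂ q, ψ ≠ 1 →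
  ∀ d e : ℕ, Squarefree d → 1 ≤ e → (d : ℝ) ≤ x ^ H → (e : ℝ) ≤ x ^ H →
    ‖∑ r ∈ (Finset.Icc 1 ⌊x⌋₊).filter (fun r => Nat.Coprime r e),
      ((ρ (d * r) : ℝ) : ℂ) * ψ (r : ZMod q)‖ ≤ x * dv d ^ K * dv e ^ K / Real.log x ^ B

/-- RGB: base cases. -/
def RgbStatement : Prop := (Reg one ∧ Tb one) ∧ (Reg lg ∧ Tb lg) ∧ (Reg La ∧ Tb La)

/-- RGM: convolutions (hyperbola method). -/
def RgmStatement : Prop := ∀ ρ ρ' : ArithmeticFunction ℝ, Tb ρ → Tb ρ' → Reg ρ → Reg ρ' →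
  Reg (ρ * ρ') ∧ Tb (ρ * ρ')

/-- RGC: a short factor with arbitrary coefficients, and the weight. -/
def RgcStatement : Prop := ∀ th lam : ℝ, 0 < th → th < 1 / 2 → 0 < lam → lam < 1 → ∀ j : ℕ,
  ∀ ρ : ArithmeticFunction ℝ, Tb ρ → Reg ρ → ∀ c : ℝ → ArithmeticFunction ℝ, DB c →
    (∀ T : ℝ, 3 ≤ T → ∀ n : ℕ, c T n ≠ 0 → (n : ℝ) ≤ T ^ lam) →
    ∃ K : ℕ, ∀ A B : ℕ, ∀ᶠ T : ℝ in atTop, ∀ q s d : ℕ, 2 ≤ q → (q : ℝ) ≤ Real.log T ^ A →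
      ((q * s : ℕ) : ℝ) ≤ T ^ th → Squarefree s → d ∣ s →
      ∀ ψ : DirichletCharacter ℂ q, ψ.IsPrimitive →
        ‖VV j T (ρ * c T) (q * s) d ψ‖ ≤ T * ((s : ℝ) / d) * dv s ^ K / Real.log T ^ B

/-- LOW: the small conductors. -/
def LowStatement : Prop := ∀ th lam c1 c2 : ℝ, 0 < th → th < 1 / 2 → 0 < lam → lam < 1 →
  ∀ α : ℝ → ArithmeticFunction ℝ, IsAl th lam c1 c2 α → ∀ j A : ℕ,
    Tendsto (fun T : ℝ => EE th j T 1 ⌊Real.log T ^ A⌋₊ (α T) / T) atTop (𝓝 0)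

/-! ### Reduction -/

/-- RED: reduction to character sums. -/
def RedStatement : Prop := ∀ th lam c1 c2 : ℝ, 0 < th → th < 1 / 2 → 0 < lam → lam < 1 →
  ∀ α : ℝ → ArithmeticFunction ℝ, IsAl th lam c1 c2 α → ∀ j : ℕ, ∃ C : ℝ, ∀ᶠ T : ℝ in atTop,
    ‖Ssum th c1 c2 T j (α T) - (Psum th c1 c2 T j (α T) : ℂ)‖ ≤
      C * (1 + EE th j T 1 ⌊T ^ th⌋₊ (α T))

end Pool.Agent.Lib.MP_6bc78b_nt.MS.P2
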