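import Mathlib
import Pool.Agent.Lib.MP_6bc78b_nt.MS.P2.Iface

/-! Project MS, Part II: the functional `Ph` (weighted sum over primitive characters). -/

set_option autoImplicit false

open Filter Topology ArithmeticFunction

namespace Pool.Agent.Lib.MP_6bc78b_nt.MS.P2

open Pool.Agent.Lib.MP_6bc78b_nt.LS (primSum primSum_mono primSum_nonneg primSum_add
  primSum_const_mul)

/-- Weighted sum over the primitive characters with conductor in `S`. -/
noncomputable def Ph (S : Finset ℕ) (X : ∀ q : ℕ, DirichletCharacter ℂ q → ℝ) : ℝ :=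
  ∑ q ∈ S, 1 / (Real.sqrt q * (q.totient : ℝ)) * primSum q (X q)

lemma wq_nonneg (q : ℕ) : 0 ≤ 1 / (Real.sqrt q * (q.totient : ℝ)) := by positivity

lemma Ph_mono (S : Finset ℕ) (X Y : ∀ q : ℕ, DirichletCharacter ℂ q → ℝ)
    (h : ∀ q ∈ S, ∀ ψ : DirichletCharacter ℂ q, ψ.IsPrimitive → X q ψ ≤ Y q ψ) :
    Ph S X ≤ Ph S Y := by
  unfold Ph
  refine Finset.sum_le_sum (fun q hq => ?_)
  exact mul_le_mul_of_nonneg_left (primSum_mono q _ _ (h q hq)) (wq_nonneg q)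

lemma Ph_nonneg (S : Finset ℕ) (X : ∀ q : ℕ, DirichletCharacter ℂ q → ℝ)
    (h : ∀ q, ∀ ψ : DirichletCharacter ℂ q, 0 ≤ X q ψ) : 0 ≤ Ph S X := by
  unfold Ph
  exact Finset.sum_nonneg (fun q _ => mul_nonneg (wq_nonneg q) (primSum_nonneg q _ (h q)))

lemma Ph_add (S : Finset ℕ) (X Y : ∀ q : ℕ, DirichletCharacter ℂ q → ℝ) :
    Ph S (fun q ψ => X q ψ + Y q ψ) = Ph S X + Ph S Y := by
  unfold Ph
  rw [← Finset.sum_add_distrib]
  refine Finset.sum_congr rfl (fun q _ => ?_)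
  rw [primSum_add, mul_add]

lemma Ph_const_mul (S : Finset ℕ) (c : ℝ) (X : ∀ q : ℕ, DirichletCharacter ℂ q → ℝ) :
    Ph S (fun q ψ => c * X q ψ) = c * Ph S X := by
  unfold Ph
  rw [Finset.mul_sum]
  refine Finset.sum_congr rfl (fun q _ => ?_)
  rw [primSum_const_mul]; ring

lemma Ph_zero (S : Finset ℕ) : Ph S (fun _ _ => 0) = 0 := by
  have h := Ph_const_mul S 0 (fun _ _ => 0)
  simpa using h

lemma Ph_sum {ι : Type*} (S : Finset ℕ) (R : Finset ι)
    (X : ι → ∀ q : ℕ, DirichletCharacter ℂ q → ℝ) :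
    Ph S (fun q ψ => ∑ i ∈ R, X i q ψ) = ∑ i ∈ R, Ph S (X i) := by
  classical
  induction R using Finset.induction_on with
  | empty => simp only [Finset.sum_empty]; exact Ph_zero S
  | insert i R hi ih =>
    rw [Finset.sum_insert hi, ← ih, ← Ph_add]
    congr 1
    funext q ψ
    rw [Finset.sum_insert hi]

lemma QQ_eq_Ph (j : ℕ) (T : ℝ) (α : ArithmeticFunction ℝ) (s d : ℕ) (S : Finset ℕ) :
    QQ j T α s d S = Ph S (fun q ψ => ‖VV j T α (q * s) d ψ‖) := rfl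

lemma QQ_nonneg (j : ℕ) (T : ℝ) (α : ArithmeticFunction ℝ) (s d : ℕ) (S : Finset ℕ) :
    0 ≤ QQ j T α s d S := by
  rw [QQ_eq_Ph]; exact Ph_nonneg _ _ (fun _ _ => norm_nonneg _)

lemma EE_nonneg (th : ℝ) (j : ℕ) (T : ℝ) (a b : ℕ) (α : ArithmeticFunction ℝ) :
    0 ≤ EE th j T a b α := by
  unfold EE
  refine Finset.sum_nonneg (fun s _ => mul_nonneg (by positivity) ?_)
  exact Finset.sum_nonneg (fun d _ => mul_nonneg (by positivity) (QQ_nonneg _ _ _ _ _ _))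

lemma VV_add (j : ℕ) (T : ℝ) (α β : ArithmeticFunction ℝ) (m d : ℕ) {q : ℕ}
    (ψ : DirichletCharacter ℂ q) : VV j T (α + β) m d ψ = VV j T α m d ψ + VV j T β m d ψ := by
  unfold VV
  rw [← Finset.sum_add_distrib]
  refine Finset.sum_congr rfl (fun n _ => ?_)
  rw [ArithmeticFunction.add_apply]
  push_cast
  ring

lemma VV_sum {ι : Type*} (j : ℕ) (T : ℝ) (R : Finset ι) (α : ι → ArithmeticFunction ℝ) (m d : ℕ)
    {q : ℕ} (ψ : DirichletCharacter ℂ q) :
    VV j T (∑ i ∈ R, α i) m d ψ = ∑ i ∈ R, VV j T (α i) m d ψ := by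
  classical
  induction R using Finset.induction_on with
  | empty => simp [VV]
  | insert i R hi ih => rw [Finset.sum_insert hi, Finset.sum_insert hi, VV_add, ih]

lemma VV_congr (j : ℕ) (T : ℝ) (α β : ArithmeticFunction ℝ) (m d : ℕ) {q : ℕ}
    (ψ : DirichletCharacter ℂ q) (h : ∀ n : ℕ, 1 ≤ n → n ≤ ⌊T ^ 2⌋₊ → α n = β n) :
    VV j T α m d ψ = VV j T β m d ψ := by
  unfold VV
  refine Finset.sum_congr rfl (fun n hn => ?_)
  rw [Finset.mem_filter, Finset.mem_Icc] at hn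
  rw [h n hn.1.1 hn.1.2]

lemma QQ_add_le (j : ℕ) (T : ℝ) (α β : ArithmeticFunction ℝ) (s d : ℕ) (S : Finset ℕ) :
    QQ j T (α + β) s d S ≤ QQ j T α s d S + QQ j T β s d S := by
  rw [QQ_eq_Ph, QQ_eq_Ph, QQ_eq_Ph, ← Ph_add]
  refine Ph_mono _ _ _ (fun q _ ψ _ => ?_)
  rw [VV_add]; exact norm_add_le _ _

lemma QQ_sum_le {ι : Type*} (j : ℕ) (T : ℝ) (R : Finset ι) (α : ι → ArithmeticFunction ℝ)
    (s d : ℕ) (S : Finset ℕ) :
    QQ j T (∑ i ∈ R, α i) s d S ≤ ∑ i ∈ R, QQ j T (α i) s d S := by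
  simp only [QQ_eq_Ph]
  rw [← Ph_sum]
  refine Ph_mono _ _ _ (fun q _ ψ _ => ?_)
  rw [VV_sum]; exact norm_sum_le _ _

lemma QQ_subset_le (j : ℕ) (T : ℝ) (α : ArithmeticFunction ℝ) (s d : ℕ) (S S' : Finset ℕ)
    (h : S ⊆ S') : QQ j T α s d S ≤ QQ j T α s d S' := by
  unfold QQ
  exact Finset.sum_le_sum_of_subset_of_nonneg h
    (fun q _ _ => mul_nonneg (wq_nonneg q) (primSum_nonneg q _ (fun _ => norm_nonneg _)))

lemma EE_add_le (th : ℝ) (j : ℕ) (T : ℝ) (a b : ℕ) (α β : ArithmeticFunction ℝ) :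
    EE th j T a b (α + β) ≤ EE th j T a b α + EE th j T a b β := by
  unfold EE
  rw [← Finset.sum_add_distrib]
  refine Finset.sum_le_sum (fun s _ => ?_)
  rw [← mul_add]
  refine mul_le_mul_of_nonneg_left ?_ (by positivity)
  rw [← Finset.sum_add_distrib]
  refine Finset.sum_le_sum (fun d _ => ?_)
  rw [← mul_add]
  exact mul_le_mul_of_nonneg_left (QQ_add_le _ _ _ _ _ _ _) (by positivity)

/-- Splitting the range of the conductors. -/
lemma EE_split (th : ℝ) (j : ℕ) (T : ℝ) (a b c : ℕ) (α : ArithmeticFunction ℝ) :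
    EE th j T a c α ≤ EE th j T a b α + EE th j T b c α := by
  unfold EE
  rw [← Finset.sum_add_distrib]
  refine Finset.sum_le_sum (fun s _ => ?_)
  rw [← mul_add]
  refine mul_le_mul_of_nonneg_left ?_ (by positivity)
  rw [← Finset.sum_add_distrib]
  refine Finset.sum_le_sum (fun d _ => ?_)
  rw [← mul_add]
  refine mul_le_mul_of_nonneg_left ?_ (by positivity)
  classical
  set P : ℕ → Prop := fun q => ((q * s : ℕ) : ℝ) ≤ T ^ th with hP
  have h1 : (Finset.Ioc a c).filter P ⊆ (Finset.Ioc a b).filter P ∪ (Finset.Ioc b c).filter P := by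
    intro q hq
    simp only [Finset.mem_union, Finset.mem_filter, Finset.mem_Ioc] at hq ⊢
    rcases le_or_gt q b with h | h
    · left; exact ⟨⟨hq.1.1, h⟩, hq.2⟩
    · right; exact ⟨⟨h, hq.1.2⟩, hq.2⟩
  refine le_trans (QQ_subset_le j T α s d _ _ h1) ?_
  unfold QQ
  have h2 := Finset.sum_union_inter (s₁ := (Finset.Ioc a b).filter P)
    (s₂ := (Finset.Ioc b c).filter P)
    (f := fun q : ℕ => 1 / (Real.sqrt q * (q.totient : ℝ)) *
      primSum q (fun ψ => ‖VV j T α (q * s) d ψ‖))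
  have h3 : 0 ≤ ∑ q ∈ (Finset.Ioc a b).filter P ∩ (Finset.Ioc b c).filter P,
      1 / (Real.sqrt q * (q.totient : ℝ)) * primSum q (fun ψ => ‖VV j T α (q * s) d ψ‖) :=
    Finset.sum_nonneg (fun q _ =>
      mul_nonneg (wq_nonneg q) (primSum_nonneg q _ (fun _ => norm_nonneg _)))
  linarith

end Pool.Agent.Lib.MP_6bc78b_nt.MS.P2
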