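import Mathlib
import Pool.Agent.Lib.MP_6bc78b_nt.MS.P2.Ph

/-! Project MS, Part II, module BLK: one dyadic block. -/

set_option autoImplicit false

open Filter Topology ArithmeticFunction

namespace Pool.Agent.Lib.MP_6bc78b_nt.MS.P2

open Pool.Agent.Lib.MP_6bc78b_nt.LS (primSum primSum_mono primSum_nonneg primSum_add
  primSum_const_mul)

namespace Blk

/-- the part `x` of the block -/
noncomputable def FF (u : ArithmeticFunction ℝ) (d1 d2 : ℕ) {q : ℕ} (ψ : DirichletCharacter ℂ q)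
    (x : ℕ) : ℂ := if Nat.Coprime x d2 then ((u (d1 * x) : ℝ) : ℂ) * ψ (x : ZMod q) else 0

lemma range_mem (U d1 x : ℕ) (hU : 1 ≤ U) (hd1 : 1 ≤ d1) :
    x ∈ Finset.Ioc ((U - 1) / d1) ((2 * U - 1) / d1) ↔ U ≤ d1 * x ∧ d1 * x < 2 * U := by
  rw [Finset.mem_Ioc, Nat.div_lt_iff_lt_mul (by omega), Nat.le_div_iff_mul_le (by omega)]
  rw [mul_comm x d1]
  omega

/-- Exact formula for `VV` of a block. -/
lemma VV_block (hspl : SplStatement) (j : ℕ) (T : ℝ) (u v : ArithmeticFunction ℝ)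
    (q s d U V : ℕ) (hd : 1 ≤ d) (hU : 1 ≤ U) (hV : 1 ≤ V)
    (hu : ∀ n : ℕ, u n ≠ 0 → U ≤ n ∧ n < 2 * U) (hv : ∀ n : ℕ, v n ≠ 0 → V ≤ n ∧ n < 2 * V)
    (hN : 4 * (U * V) ≤ ⌊T ^ 2⌋₊) (ψ : DirichletCharacter ℂ q) :
    VV j T (u * v) (q * s) d ψ = ∑ d1 ∈ d.divisors, ψ (d : ZMod q) *
      ∑ x ∈ Finset.Ioc ((U - 1) / d1) ((2 * U - 1) / d1),
        ∑ z ∈ Finset.Ioc ((V - 1) / (d / d1)) ((2 * V - 1) / (d / d1)),
          FF u d1 (d / d1) ψ x * FF v (d / d1) 1 ψ z *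
            ((wt j T ((d : ℝ) / ((q * s : ℕ) : ℝ) * x * z) : ℝ) : ℂ) := by
  set N := ⌊T ^ 2⌋₊ with hNdef
  have h1 : VV j T (u * v) (q * s) d ψ = ∑ n ∈ (Finset.Icc 1 N).filter (fun n => d ∣ n),
      (((u * v) n : ℝ) : ℂ) * (((wt j T ((n : ℝ) / ((q * s : ℕ) : ℝ)) : ℝ) : ℂ) *
        ψ (n : ZMod q)) := by
    unfold VV
    refine Finset.sum_congr rfl (fun n _ => ?_)
    push_cast; ring
  rw [h1, hspl d N hd u v]
  refine Finset.sum_congr rfl (fun d1 hd1 => ?_)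
  have hd1' := Nat.mem_divisors.1 hd1
  have hd1p : 1 ≤ d1 := Nat.pos_of_mem_divisors hd1
  have hd2p : 1 ≤ d / d1 := Nat.div_pos (Nat.le_of_dvd (by omega) hd1'.1) (by omega)
  have hdd : d1 * (d / d1) = d := Nat.mul_div_cancel' hd1'.1
  set d2 := d / d1 with hd2
  rw [Finset.mul_sum, Finset.sum_filter]
  have hsub : Finset.Ioc ((U - 1) / d1) ((2 * U - 1) / d1) ⊆ Finset.Icc 1 N := by
    intro x hx
    have hx' := (range_mem U d1 x hU hd1p).1 hx
    rw [Finset.mem_Ioc] at hx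
    rw [Finset.mem_Icc]
    refine ⟨Nat.lt_of_le_of_lt (Nat.zero_le _) hx.1, ?_⟩
    have : x ≤ d1 * x := Nat.le_mul_of_pos_left x (by omega)
    have : U ≤ U * V := Nat.le_mul_of_pos_right U (by omega)
    omega
  rw [← Finset.sum_subset hsub]
  · refine Finset.sum_congr rfl (fun x hx => ?_)
    have hx' := (range_mem U d1 x hU hd1p).1 hx
    have hx1 : 1 ≤ x := Nat.lt_of_le_of_lt (Nat.zero_le _) (Finset.mem_Ioc.1 hx).1
    split_ifs with hc
    · rw [Finset.mul_sum]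
      have hsub2 : Finset.Ioc ((V - 1) / d2) ((2 * V - 1) / d2) ⊆
          (Finset.Icc 1 N).filter (fun z => d * x * z ≤ N) := by
        intro z hz
        have hz' := (range_mem V d2 z hV hd2p).1 hz
        rw [Finset.mem_Ioc] at hz
        have hz1 : 1 ≤ z := Nat.lt_of_le_of_lt (Nat.zero_le _) hz.1
        have hprod : d * x * z ≤ N := by
          have e : d * x * z = (d1 * x) * (d2 * z) := by rw [← hdd]; ring
          rw [e]
          calc (d1 * x) * (d2 * z) ≤ (2 * U) * (2 * V) :=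
                Nat.mul_le_mul (by omega) (by omega)
            _ = 4 * (U * V) := by ring
            _ ≤ N := hN
        rw [Finset.mem_filter, Finset.mem_Icc]
        refine ⟨⟨hz1, ?_⟩, hprod⟩
        calc z = 1 * z := (one_mul z).symm
          _ ≤ d * x * z := Nat.mul_le_mul_right z (Nat.mul_pos (by omega) (by omega))
          _ ≤ N := hprod
      rw [← Finset.sum_subset hsub2]
      · refine Finset.sum_congr rfl (fun z hz => ?_)
        have hz1 : 1 ≤ z := Nat.lt_of_le_of_lt (Nat.zero_le _) (Finset.mem_Ioc.1 hz).1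
        unfold FF
        rw [if_pos hc, if_pos (Nat.coprime_one_right z)]
        have e1 : (((d * x * z : ℕ) : ℝ) / ((q * s : ℕ) : ℝ)) =
            (d : ℝ) / ((q * s : ℕ) : ℝ) * x * z := by
          push_cast; ring
        rw [e1]
        have e2 : ψ ((d * x * z : ℕ) : ZMod q) = ψ (d : ZMod q) * ψ (x : ZMod q) * ψ (z : ZMod q) := by
          push_cast
          rw [map_mul, map_mul]
        rw [e2]; ring
      · intro z _ hz
        have hz' : ¬ (V ≤ d2 * z ∧ d2 * z < 2 * V) := fun h => hz ((range_mem V d2 z hV hd2p).2 h)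
        have : v (d2 * z) = 0 := by
          by_contra hne
          exact hz' (hv _ hne)
        rw [this]; simp
    · have : FF u d1 d2 ψ x = 0 := by unfold FF; rw [if_neg hc]
      rw [this]; simp
  · intro x _ hx
    have hx' : ¬ (U ≤ d1 * x ∧ d1 * x < 2 * U) := fun h => hx ((range_mem U d1 x hU hd1p).2 h)
    have : u (d1 * x) = 0 := by
      by_contra hne
      exact hx' (hu _ hne)
    split_ifs
    · rw [this]; simp
    · rfl

/-- Harmonic sum over a dyadic range. -/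
lemma harm_dyadic (U d1 : ℕ) (hU : 1 ≤ U) (hd1 : 1 ≤ d1) :
    ∑ x ∈ Finset.Ioc ((U - 1) / d1) ((2 * U - 1) / d1), 1 / (x : ℝ) ≤ 2 := by
  set a := (U - 1) / d1 with ha
  set b := (2 * U - 1) / d1 with hb
  have hab : b ≤ 2 * a + 2 := by
    have h1 : b < 2 * a + 2 + 1 := by
      rw [hb, Nat.div_lt_iff_lt_mul (by omega)]
      have h2 : U - 1 < (a + 1) * d1 := by
        rw [ha]
        have := Nat.lt_mul_div_succ (U - 1) (show 0 < d1 by omega)
        rw [mul_comm]; exact this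
      have h3 : U ≤ (a + 1) * d1 := by omega
      have h4 : 2 * U ≤ 2 * ((a + 1) * d1) := by omega
      have h5 : 2 * ((a + 1) * d1) ≤ (2 * a + 2 + 1) * d1 := by nlinarith
      omega
    omega
  calc ∑ x ∈ Finset.Ioc a b, 1 / (x : ℝ) ≤ ∑ x ∈ Finset.Ioc a b, 1 / ((a : ℝ) + 1) := by
        refine Finset.sum_le_sum (fun x hx => ?_)
        rw [Finset.mem_Ioc] at hx
        apply one_div_le_one_div_of_le (by positivity)
        have : a + 1 ≤ x := hx.1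
        exact_mod_cast this
    _ = ((b - a : ℕ) : ℝ) * (1 / ((a : ℝ) + 1)) := by
        rw [Finset.sum_const, Nat.card_Ioc, nsmul_eq_mul]
    _ ≤ ((a : ℝ) + 2) * (1 / ((a : ℝ) + 1)) := by
        apply mul_le_mul_of_nonneg_right _ (by positivity)
        have : b - a ≤ a + 2 := by omega
        exact_mod_cast this
    _ ≤ 2 := by
        rw [mul_one_div, div_le_iff₀ (by positivity)]
        have : (0 : ℝ) ≤ a := Nat.cast_nonneg a
        linarith

/-- Partial summation in a block. -/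
lemma abel_block (habl : AblStatement) (j : ℕ) (T D c : ℝ) (a b a' b' : ℕ) (F G : ℕ → ℂ)
    (h0 : |wt j T (c * ((b + 1 : ℕ) : ℝ) * ((b' + 1 : ℕ) : ℝ))| ≤ D)
    (h1 : ∀ z ∈ Finset.Ioc a' b', |wt j T (c * ((b + 1 : ℕ) : ℝ) * ((z + 1 : ℕ) : ℝ)) -
      wt j T (c * ((b + 1 : ℕ) : ℝ) * z)| ≤ D / z)
    (h2 : ∀ x ∈ Finset.Ioc a b, |wt j T (c * ((x + 1 : ℕ) : ℝ) * ((b' + 1 : ℕ) : ℝ)) -
      wt j T (c * x * ((b' + 1 : ℕ) : ℝ))| ≤ D / x)
    (h3 : ∀ x ∈ Finset.Ioc a b, ∀ z ∈ Finset.Ioc a' b',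
      |wt j T (c * ((x + 1 : ℕ) : ℝ) * ((z + 1 : ℕ) : ℝ)) - wt j T (c * ((x + 1 : ℕ) : ℝ) * z) -
        wt j T (c * x * ((z + 1 : ℕ) : ℝ)) + wt j T (c * x * z)| ≤ D / (x * z)) :
    ‖∑ x ∈ Finset.Ioc a b, ∑ z ∈ Finset.Ioc a' b', F x * G z * ((wt j T (c * x * z) : ℝ) : ℂ)‖ ≤
      D * (‖∑ y ∈ Finset.Ioc a b, F y‖ * ‖∑ y ∈ Finset.Ioc a' b', G y‖) +
      ∑ z ∈ Finset.Ioc a' b', D * (1 / (z : ℝ)) *
        (‖∑ y ∈ Finset.Ioc a b, F y‖ * ‖∑ y ∈ Finset.Ioc a' z, G y‖) +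
      ∑ x ∈ Finset.Ioc a b, D * (1 / (x : ℝ)) *
        (‖∑ y ∈ Finset.Ioc a x, F y‖ * ‖∑ y ∈ Finset.Ioc a' b', G y‖) +
      ∑ x ∈ Finset.Ioc a b, ∑ z ∈ Finset.Ioc a' b', D * (1 / (x : ℝ) * (1 / (z : ℝ))) *
        (‖∑ y ∈ Finset.Ioc a x, F y‖ * ‖∑ y ∈ Finset.Ioc a' z, G y‖) := by
  refine le_trans (habl.2 a b a' b' F G (fun x z => wt j T (c * x * z))) ?_
  gcongr ?_ + ?_ + ?_ + ?_
  · rw [mul_comm]
    exact mul_le_mul_of_nonneg_right h0 (by positivity)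
  · refine Finset.sum_le_sum (fun z hz => ?_)
    have := h1 z hz
    rw [mul_comm]
    refine mul_le_mul_of_nonneg_right (le_trans this (le_of_eq ?_)) (by positivity)
    ring
  · refine Finset.sum_le_sum (fun x hx => ?_)
    have := h2 x hx
    rw [mul_comm]
    refine mul_le_mul_of_nonneg_right (le_trans this (le_of_eq ?_)) (by positivity)
    ring
  · refine Finset.sum_le_sum (fun x hx => Finset.sum_le_sum (fun z hz => ?_))
    have := h3 x hx z hz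
    rw [mul_comm]
    refine mul_le_mul_of_nonneg_right (le_trans this (le_of_eq ?_)) (by positivity)
    rw [div_eq_mul_one_div, one_div_mul_one_div]

/-- Sum over the characters of a block, given a uniform bound for the partial sums. -/
lemma Ph_block (S : Finset ℕ) (D R : ℝ) (hD : 0 ≤ D) (hR : 0 ≤ R) (a b a' b' : ℕ)
    (F G : ∀ q : ℕ, DirichletCharacter ℂ q → ℕ → ℂ)
    (hF : ∑ x ∈ Finset.Ioc a b, 1 / (x : ℝ) ≤ 2) (hG : ∑ z ∈ Finset.Ioc a' b', 1 / (z : ℝ) ≤ 2)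
    (hPh : ∀ x z : ℕ, x ≤ b → z ≤ b' → Ph S (fun q ψ =>
      ‖∑ y ∈ Finset.Ioc a x, F q ψ y‖ * ‖∑ y ∈ Finset.Ioc a' z, G q ψ y‖) ≤ R) :
    Ph S (fun q ψ =>
      D * (‖∑ y ∈ Finset.Ioc a b, F q ψ y‖ * ‖∑ y ∈ Finset.Ioc a' b', G q ψ y‖) +
      ∑ z ∈ Finset.Ioc a' b', D * (1 / (z : ℝ)) *
        (‖∑ y ∈ Finset.Ioc a b, F q ψ y‖ * ‖∑ y ∈ Finset.Ioc a' z, G q ψ y‖) +
      ∑ x ∈ Finset.Ioc a b, D * (1 / (x : ℝ)) *
        (‖∑ y ∈ Finset.Ioc a x, F q ψ y‖ * ‖∑ y ∈ Finset.Ioc a' b', G q ψ y‖) +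
      ∑ x ∈ Finset.Ioc a b, ∑ z ∈ Finset.Ioc a' b', D * (1 / (x : ℝ) * (1 / (z : ℝ))) *
        (‖∑ y ∈ Finset.Ioc a x, F q ψ y‖ * ‖∑ y ∈ Finset.Ioc a' z, G q ψ y‖)) ≤ 9 * D * R := by
  rw [Ph_add, Ph_add, Ph_add, Ph_const_mul, Ph_sum, Ph_sum, Ph_sum]
  have e1 : Ph S (fun q ψ => ‖∑ y ∈ Finset.Ioc a b, F q ψ y‖ *
      ‖∑ y ∈ Finset.Ioc a' b', G q ψ y‖) ≤ R := hPh b b' le_rfl le_rfl
  have e2 : ∑ z ∈ Finset.Ioc a' b', Ph S (fun q ψ => D * (1 / (z : ℝ)) *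
        (‖∑ y ∈ Finset.Ioc a b, F q ψ y‖ * ‖∑ y ∈ Finset.Ioc a' z, G q ψ y‖)) ≤ D * R * 2 := by
    calc ∑ z ∈ Finset.Ioc a' b', Ph S (fun q ψ => D * (1 / (z : ℝ)) *
          (‖∑ y ∈ Finset.Ioc a b, F q ψ y‖ * ‖∑ y ∈ Finset.Ioc a' z, G q ψ y‖))
        ≤ ∑ z ∈ Finset.Ioc a' b', D * R * (1 / (z : ℝ)) := by
          refine Finset.sum_le_sum (fun z hz => ?_)
          rw [Ph_const_mul]
          calc D * (1 / (z : ℝ)) * Ph S (fun q ψ => ‖∑ y ∈ Finset.Ioc a b, F q ψ y‖ *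
                ‖∑ y ∈ Finset.Ioc a' z, G q ψ y‖) ≤ D * (1 / (z : ℝ)) * R :=
                mul_le_mul_of_nonneg_left (hPh b z le_rfl (Finset.mem_Ioc.1 hz).2) (by positivity)
            _ = D * R * (1 / (z : ℝ)) := by ring
      _ ≤ D * R * 2 := by
          rw [← Finset.mul_sum]
          exact mul_le_mul_of_nonneg_left hG (by positivity)
  have e3 : ∑ x ∈ Finset.Ioc a b, Ph S (fun q ψ => D * (1 / (x : ℝ)) *
        (‖∑ y ∈ Finset.Ioc a x, F q ψ y‖ * ‖∑ y ∈ Finset.Ioc a' b', G q ψ y‖)) ≤ D * R * 2 := by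
    calc ∑ x ∈ Finset.Ioc a b, Ph S (fun q ψ => D * (1 / (x : ℝ)) *
          (‖∑ y ∈ Finset.Ioc a x, F q ψ y‖ * ‖∑ y ∈ Finset.Ioc a' b', G q ψ y‖))
        ≤ ∑ x ∈ Finset.Ioc a b, D * R * (1 / (x : ℝ)) := by
          refine Finset.sum_le_sum (fun x hx => ?_)
          rw [Ph_const_mul]
          calc D * (1 / (x : ℝ)) * Ph S (fun q ψ => ‖∑ y ∈ Finset.Ioc a x, F q ψ y‖ *
                ‖∑ y ∈ Finset.Ioc a' b', G q ψ y‖) ≤ D * (1 / (x : ℝ)) * R :=
                mul_le_mul_of_nonneg_left (hPh x b' (Finset.mem_Ioc.1 hx).2 le_rfl) (by positivity)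
            _ = D * R * (1 / (x : ℝ)) := by ring
      _ ≤ D * R * 2 := by
          rw [← Finset.mul_sum]
          exact mul_le_mul_of_nonneg_left hF (by positivity)
  have e4 : ∑ x ∈ Finset.Ioc a b, Ph S (fun q ψ => ∑ z ∈ Finset.Ioc a' b',
      D * (1 / (x : ℝ) * (1 / (z : ℝ))) *
        (‖∑ y ∈ Finset.Ioc a x, F q ψ y‖ * ‖∑ y ∈ Finset.Ioc a' z, G q ψ y‖)) ≤ D * R * 4 := by
    calc ∑ x ∈ Finset.Ioc a b, Ph S (fun q ψ => ∑ z ∈ Finset.Ioc a' b',
          D * (1 / (x : ℝ) * (1 / (z : ℝ))) *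
          (‖∑ y ∈ Finset.Ioc a x, F q ψ y‖ * ‖∑ y ∈ Finset.Ioc a' z, G q ψ y‖))
        ≤ ∑ x ∈ Finset.Ioc a b, D * R * (1 / (x : ℝ)) * 2 := by
          refine Finset.sum_le_sum (fun x hx => ?_)
          rw [Ph_sum]
          calc ∑ z ∈ Finset.Ioc a' b', Ph S (fun q ψ => D * (1 / (x : ℝ) * (1 / (z : ℝ))) *
                (‖∑ y ∈ Finset.Ioc a x, F q ψ y‖ * ‖∑ y ∈ Finset.Ioc a' z, G q ψ y‖))
              ≤ ∑ z ∈ Finset.Ioc a' b', D * R * (1 / (x : ℝ)) * (1 / (z : ℝ)) := by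
                refine Finset.sum_le_sum (fun z hz => ?_)
                rw [Ph_const_mul]
                calc D * (1 / (x : ℝ) * (1 / (z : ℝ))) * Ph S (fun q ψ =>
                      ‖∑ y ∈ Finset.Ioc a x, F q ψ y‖ * ‖∑ y ∈ Finset.Ioc a' z, G q ψ y‖)
                    ≤ D * (1 / (x : ℝ) * (1 / (z : ℝ))) * R :=
                      mul_le_mul_of_nonneg_left
                        (hPh x z (Finset.mem_Ioc.1 hx).2 (Finset.mem_Ioc.1 hz).2) (by positivity)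
                  _ = D * R * (1 / (x : ℝ)) * (1 / (z : ℝ)) := by ring
            _ ≤ D * R * (1 / (x : ℝ)) * 2 := by
                rw [← Finset.mul_sum]
                exact mul_le_mul_of_nonneg_left hG (by positivity)
      _ ≤ D * R * 4 := by
          have : ∑ x ∈ Finset.Ioc a b, D * R * (1 / (x : ℝ)) * 2 =
              D * R * 2 * ∑ x ∈ Finset.Ioc a b, 1 / (x : ℝ) := by
            rw [Finset.mul_sum]
            exact Finset.sum_congr rfl (fun x _ => by ring)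
          rw [this]
          calc D * R * 2 * ∑ x ∈ Finset.Ioc a b, 1 / (x : ℝ) ≤ D * R * 2 * 2 :=
                mul_le_mul_of_nonneg_left hF (by positivity)
            _ = D * R * 4 := by ring
  have e1' : D * Ph S (fun q ψ => ‖∑ y ∈ Finset.Ioc a b, F q ψ y‖ *
      ‖∑ y ∈ Finset.Ioc a' b', G q ψ y‖) ≤ D * R := mul_le_mul_of_nonneg_left e1 hD
  linarith

/-- The large sieve bound for the partial sums of a block. -/
lemma Ph_partial (Q : ℕ) (hQ : 1 ≤ Q) (u v : ArithmeticFunction ℝ) (d1 d2 a b a' b' x z : ℕ)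
    (hx : x ≤ b) (hz : z ≤ b') (A B : ℝ)
    (hA : ∑ k ∈ Finset.Icc 1 b, (u (d1 * k)) ^ 2 ≤ A)
    (hB : ∑ k ∈ Finset.Icc 1 b', (v (d2 * k)) ^ 2 ≤ B) :
    Ph (Finset.Ioc Q (2 * Q)) (fun q ψ =>
      ‖∑ y ∈ Finset.Ioc a x, FF u d1 d2 ψ y‖ * ‖∑ y ∈ Finset.Ioc a' z, FF v d2 1 ψ y‖) ≤
      1 / ((Q : ℝ) * Real.sqrt Q) * Real.sqrt (((4 * (Q : ℝ) ^ 2 + 4 * Real.pi * ((b + 1 : ℕ) : ℝ)) * A) *
        ((4 * (Q : ℝ) ^ 2 + 4 * Real.pi * ((b' + 1 : ℕ) : ℝ)) * B)) := by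
  classical
  set f : ℕ → ℂ := fun k => if a < k ∧ k ≤ x ∧ Nat.Coprime k d2 then ((u (d1 * k) : ℝ) : ℂ) else 0
    with hf
  set g : ℕ → ℂ := fun k => if a' < k ∧ k ≤ z then ((v (d2 * k) : ℝ) : ℂ) else 0 with hg
  have h := Pool.Agent.Lib.MP_6bc78b_nt.LS.bilinear Q (b + 1) (b' + 1) hQ f g
  have e1 : ∀ (q : ℕ) (ψ : DirichletCharacter ℂ q), ∑ k ∈ Finset.range (b + 1), f k * ψ (k : ZMod q) =
      ∑ y ∈ Finset.Ioc a x, FF u d1 d2 ψ y := by
    intro q ψ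
    have hsub : Finset.Ioc a x ⊆ Finset.range (b + 1) := by
      intro k hk
      rw [Finset.mem_Ioc] at hk
      rw [Finset.mem_range]; omega
    rw [← Finset.sum_subset hsub]
    · refine Finset.sum_congr rfl (fun k hk => ?_)
      rw [Finset.mem_Ioc] at hk
      unfold FF
      by_cases hc : Nat.Coprime k d2
      · have e : f k = ((u (d1 * k) : ℝ) : ℂ) := by rw [hf]; exact if_pos ⟨hk.1, hk.2, hc⟩
        rw [e, if_pos hc]
      · have e : f k = 0 := by rw [hf]; exact if_neg (fun h => hc h.2.2)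
        rw [e, if_neg hc, zero_mul]
    · intro k _ hk
      rw [Finset.mem_Ioc] at hk
      rw [hf]
      simp only
      rw [if_neg (fun h => hk ⟨h.1, h.2.1⟩), zero_mul]
  have e2 : ∀ (q : ℕ) (ψ : DirichletCharacter ℂ q), ∑ k ∈ Finset.range (b' + 1), g k * ψ (k : ZMod q) =
      ∑ y ∈ Finset.Ioc a' z, FF v d2 1 ψ y := by
    intro q ψ
    have hsub : Finset.Ioc a' z ⊆ Finset.range (b' + 1) := by
      intro k hk
      rw [Finset.mem_Ioc] at hk
      rw [Finset.mem_range]; omega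
    rw [← Finset.sum_subset hsub]
    · refine Finset.sum_congr rfl (fun k hk => ?_)
      rw [Finset.mem_Ioc] at hk
      unfold FF
      have e : g k = ((v (d2 * k) : ℝ) : ℂ) := by rw [hg]; exact if_pos ⟨hk.1, hk.2⟩
      rw [e, if_pos (Nat.coprime_one_right k)]
    · intro k _ hk
      rw [Finset.mem_Ioc] at hk
      rw [hg]
      simp only
      rw [if_neg hk, zero_mul]
  have e3 : ∑ k ∈ Finset.range (b + 1), ‖f k‖ ^ 2 ≤ A := by
    refine le_trans ?_ hA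
    rw [Finset.sum_range_succ']
    have : f 0 = 0 := by rw [hf]; simp
    rw [this, norm_zero]
    have e : ∑ k ∈ Finset.Icc 1 b, (u (d1 * k)) ^ 2 = ∑ k ∈ Finset.range b, (u (d1 * (k + 1))) ^ 2 := by
      rw [Finset.range_eq_Ico, Finset.sum_Ico_add' (fun k => (u (d1 * k)) ^ 2) 0 b 1]
      rfl
    rw [e]
    simp only [ne_eq, OfNat.ofNat_ne_zero, not_false_eq_true, zero_pow, add_zero]
    refine Finset.sum_le_sum (fun k _ => ?_)
    rw [hf]
    simp only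
    split_ifs
    · rw [Complex.norm_real, Real.norm_eq_abs, sq_abs]
    · rw [norm_zero, zero_pow two_ne_zero]; positivity
  have e4 : ∑ k ∈ Finset.range (b' + 1), ‖g k‖ ^ 2 ≤ B := by
    refine le_trans ?_ hB
    rw [Finset.sum_range_succ']
    have : g 0 = 0 := by rw [hg]; simp
    rw [this, norm_zero]
    have e : ∑ k ∈ Finset.Icc 1 b', (v (d2 * k)) ^ 2 = ∑ k ∈ Finset.range b', (v (d2 * (k + 1))) ^ 2 := by
      rw [Finset.range_eq_Ico, Finset.sum_Ico_add' (fun k => (v (d2 * k)) ^ 2) 0 b' 1]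
      rfl
    rw [e]
    simp only [ne_eq, OfNat.ofNat_ne_zero, not_false_eq_true, zero_pow, add_zero]
    refine Finset.sum_le_sum (fun k _ => ?_)
    rw [hg]
    simp only
    split_ifs
    · rw [Complex.norm_real, Real.norm_eq_abs, sq_abs]
    · rw [norm_zero, zero_pow two_ne_zero]; positivity
  have e5 : Ph (Finset.Ioc Q (2 * Q)) (fun q ψ =>
      ‖∑ y ∈ Finset.Ioc a x, FF u d1 d2 ψ y‖ * ‖∑ y ∈ Finset.Ioc a' z, FF v d2 1 ψ y‖) =
      ∑ q ∈ Finset.Ioc Q (2 * Q), 1 / (Real.sqrt q * q.totient) *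
      primSum q (fun χ => ‖∑ k ∈ Finset.range (b + 1), f k * χ (k : ZMod q)‖ *
        ‖∑ l ∈ Finset.range (b' + 1), g l * χ (l : ZMod q)‖) := by
    unfold Ph
    refine Finset.sum_congr rfl (fun q _ => ?_)
    simp only [e1, e2]
  rw [e5]
  refine le_trans h ?_
  have hA0 : 0 ≤ ∑ k ∈ Finset.range (b + 1), ‖f k‖ ^ 2 := Finset.sum_nonneg (fun _ _ => by positivity)
  have hB0 : 0 ≤ ∑ k ∈ Finset.range (b' + 1), ‖g k‖ ^ 2 := Finset.sum_nonneg (fun _ _ => by positivity)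
  refine mul_le_mul_of_nonneg_left (Real.sqrt_le_sqrt ?_) (by positivity)
  have p1 : 0 ≤ 4 * (Q : ℝ) ^ 2 + 4 * Real.pi * ((b + 1 : ℕ) : ℝ) := by positivity
  have p2 : 0 ≤ 4 * (Q : ℝ) ^ 2 + 4 * Real.pi * ((b' + 1 : ℕ) : ℝ) := by positivity
  exact mul_le_mul (mul_le_mul_of_nonneg_left e3 p1) (mul_le_mul_of_nonneg_left e4 p2)
    (mul_nonneg p2 hB0) (mul_nonneg p1 (le_trans hA0 e3))

lemma dv_nonneg (n : ℕ) : 0 ≤ dv n := Nat.cast_nonneg _

lemma one_le_dv (n : ℕ) (hn : 1 ≤ n) : 1 ≤ dv n := by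
  unfold dv
  have : 0 < n.divisors.card := Finset.card_pos.2 ⟨1, Nat.one_mem_divisors.2 (by omega)⟩
  exact_mod_cast this

lemma dv_le_of_dvd (d s : ℕ) (hs : 1 ≤ s) (h : d ∣ s) : dv d ≤ dv s := by
  unfold dv
  exact_mod_cast Finset.card_le_card (Nat.divisors_subset_of_dvd (by omega) h)

/-- The `L^2` sum of a block. -/
lemma l2_block (hdiv : DivStatement) (K : ℕ) (L : ℝ) (hL : 1 ≤ L) (u : ArithmeticFunction ℝ)
    (hub : ∀ n : ℕ, |u n| ≤ L ^ K * dv n ^ K) (U d1 s : ℕ) (hU : 1 ≤ U) (hd1 : 1 ≤ d1)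
    (hs : 1 ≤ s) (hds : d1 ∣ s) (hlog : Real.log (2 * U) ≤ 2 * L) :
    ∑ k ∈ Finset.Icc 1 ((2 * U - 1) / d1), (u (d1 * k)) ^ 2 ≤
      L ^ (2 * K) * dv s ^ (2 * K) * (3 * L) ^ (2 ^ (2 * K)) * (2 * ((U : ℝ) / d1)) := by
  set b := (2 * U - 1) / d1 with hb
  have hL0 : 0 ≤ L := by linarith
  have hdv0 : 0 ≤ dv s := dv_nonneg s
  have hrhs : 0 ≤ L ^ (2 * K) * dv s ^ (2 * K) * (3 * L) ^ (2 ^ (2 * K)) * (2 * ((U : ℝ) / d1)) := by
    positivity
  rcases Nat.eq_zero_or_pos b with h0 | hpos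
  · rw [h0]; simpa using hrhs
  have hbU : (b : ℝ) ≤ 2 * ((U : ℝ) / d1) := by
    have h1 : b * d1 ≤ 2 * U - 1 := Nat.div_mul_le_self _ _
    have h2 : b * d1 ≤ 2 * U := by omega
    have h3 : (b : ℝ) * d1 ≤ 2 * U := by exact_mod_cast h2
    have hd1' : (0 : ℝ) < d1 := by exact_mod_cast hd1
    rw [mul_div_assoc', le_div_iff₀ hd1']
    exact h3
  have hb2U : (b : ℝ) ≤ 2 * (U : ℝ) := by
    refine le_trans hbU ?_
    have hd1' : (1 : ℝ) ≤ d1 := by exact_mod_cast hd1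
    have : (U : ℝ) / d1 ≤ U := div_le_self (by positivity) hd1'
    linarith
  have hlogb : 1 + Real.log b ≤ 3 * L := by
    have : Real.log b ≤ Real.log (2 * U) :=
      Real.log_le_log (by exact_mod_cast hpos) hb2U
    linarith
  have hlogb0 : 0 ≤ 1 + Real.log b := by
    have : 0 ≤ Real.log b := Real.log_nonneg (by exact_mod_cast hpos)
    linarith
  calc ∑ k ∈ Finset.Icc 1 b, (u (d1 * k)) ^ 2
      ≤ ∑ k ∈ Finset.Icc 1 b, L ^ (2 * K) * dv (d1 * k) ^ (2 * K) := by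
        refine Finset.sum_le_sum (fun k _ => ?_)
        rw [← sq_abs]
        calc |u (d1 * k)| ^ 2 ≤ (L ^ K * dv (d1 * k) ^ K) ^ 2 :=
              pow_le_pow_left₀ (abs_nonneg _) (hub _) 2
          _ = L ^ (2 * K) * dv (d1 * k) ^ (2 * K) := by ring
    _ = L ^ (2 * K) * ∑ k ∈ Finset.Icc 1 b, dv (d1 * k) ^ (2 * K) := by rw [Finset.mul_sum]
    _ ≤ L ^ (2 * K) * (dv d1 ^ (2 * K) * b * (1 + Real.log b) ^ (2 ^ (2 * K))) :=
        mul_le_mul_of_nonneg_left (hdiv.2.2.2.2 (2 * K) d1 b hpos) (by positivity)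
    _ ≤ L ^ (2 * K) * (dv s ^ (2 * K) * (2 * ((U : ℝ) / d1)) * (3 * L) ^ (2 ^ (2 * K))) := by
        refine mul_le_mul_of_nonneg_left ?_ (by positivity)
        refine mul_le_mul ?_ (pow_le_pow_left₀ hlogb0 hlogb _) (by positivity) (by positivity)
        exact mul_le_mul (pow_le_pow_left₀ (dv_nonneg _) (dv_le_of_dvd d1 s hs hds) _) hbU
          (by positivity) (by positivity)
    _ = L ^ (2 * K) * dv s ^ (2 * K) * (3 * L) ^ (2 ^ (2 * K)) * (2 * ((U : ℝ) / d1)) := by ring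

end Blk

open Blk in
/-- Module BLK. -/
theorem blk (hdiv : DivStatement) (hspl : SplStatement) (habl : AblStatement)
    (hwtd : WtdStatement) : BlkStatement := by
  intro th hth0 hth j K
  obtain ⟨C0, M0, hC0, hev⟩ := hwtd j
  set E := 2 ^ (2 * K) with hE
  refine ⟨9 * C0 * (32 * Real.pi) * 3 ^ E, M0 + 2 * K + E, by positivity, ?_⟩
  filter_upwards [hev, eventually_ge_atTop 64] with T hT hT64
  intro Q s d U V hQ hs hd hU hV hQs hUV1 hUV2 u v hu hub hv hvb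
  obtain ⟨hw1, hw2, hw3⟩ := hT
  set L := Real.log T with hLdef
  have hT0 : (0 : ℝ) < T := by linarith
  have hL : 1 ≤ L := by
    rw [hLdef, Real.le_log_iff_exp_le hT0]
    have := Real.exp_one_lt_d9
    linarith
  have hd1 : 1 ≤ d := Nat.pos_of_dvd_of_pos hd hs
  have hQ' : (1 : ℝ) ≤ Q := by exact_mod_cast hQ
  have hs' : (1 : ℝ) ≤ s := by exact_mod_cast hs
  have hU' : (1 : ℝ) ≤ U := by exact_mod_cast hU
  have hV' : (1 : ℝ) ≤ V := by exact_mod_cast hV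
  push_cast at hQs hUV1 hUV2
  have hTth : T ^ th ≤ T / 8 := by
    calc T ^ th ≤ T ^ (1 / 2 : ℝ) := Real.rpow_le_rpow_of_exponent_le (by linarith) hth.le
      _ = Real.sqrt T := (Real.sqrt_eq_rpow T).symm
      _ ≤ T / 8 := by
          rw [Real.sqrt_le_left (by positivity)]
          nlinarith
  have hUVT : 4 * ((U : ℝ) * V) ≤ T ^ 2 := by
    calc 4 * ((U : ℝ) * V) ≤ 4 * (2 * ((Q : ℝ) * s * T)) := by linarith
      _ ≤ 4 * (2 * (T / 8 * T)) := by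
          have : (Q : ℝ) * s * T ≤ T / 8 * T :=
            mul_le_mul_of_nonneg_right (le_trans hQs hTth) hT0.le
          linarith
      _ = T ^ 2 := by ring
  have hN : 4 * (U * V) ≤ ⌊T ^ 2⌋₊ := by
    apply Nat.le_floor
    push_cast
    exact hUVT
  have hlogU : Real.log (2 * U) ≤ 2 * L := by
    have h1 : (2 * (U : ℝ)) ≤ T ^ 2 := by nlinarith
    calc Real.log (2 * U) ≤ Real.log (T ^ 2) := Real.log_le_log (by positivity) h1
      _ = 2 * L := by rw [Real.log_pow]; push_cast; ring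
  have hlogV : Real.log (2 * V) ≤ 2 * L := by
    have h1 : (2 * (V : ℝ)) ≤ T ^ 2 := by nlinarith
    calc Real.log (2 * V) ≤ Real.log (T ^ 2) := Real.log_le_log (by positivity) h1
      _ = 2 * L := by rw [Real.log_pow]; push_cast; ring
  set D := C0 * L ^ M0 with hD
  have hD0 : 0 ≤ D := by positivity
  set P := L ^ (2 * K) * dv s ^ (2 * K) * (3 * L) ^ E with hP
  have hP0 : 0 ≤ P := by
    have := dv_nonneg s
    positivity
  -- the bound for one `d1`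
  have key : ∀ d1 ∈ d.divisors, Ph (Finset.Ioc Q (2 * Q)) (fun q ψ =>
      ‖∑ x ∈ Finset.Ioc ((U - 1) / d1) ((2 * U - 1) / d1),
        ∑ z ∈ Finset.Ioc ((V - 1) / (d / d1)) ((2 * V - 1) / (d / d1)),
          FF u d1 (d / d1) ψ x * FF v (d / d1) 1 ψ z *
            ((wt j T ((d : ℝ) / ((q * s : ℕ) : ℝ) * x * z) : ℝ) : ℂ)‖) ≤
      9 * D * (32 * Real.pi * P * (1 / ((Q : ℝ) * Real.sqrt Q) *
        Real.sqrt (((Q : ℝ) ^ 2 + (U : ℝ) / d1) *
              ((Q : ℝ) ^ 2 + (V : ℝ) / ((d / d1 : ℕ) : ℝ)) * ((U : ℝ) * V / d)))) := by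
    intro d1 hd1m
    have hd1' := Nat.mem_divisors.1 hd1m
    have hd1p : 1 ≤ d1 := Nat.pos_of_mem_divisors hd1m
    have hd2p : 1 ≤ d / d1 := Nat.div_pos (Nat.le_of_dvd (by omega) hd1'.1) (by omega)
    have hdd : d1 * (d / d1) = d := Nat.mul_div_cancel' hd1'.1
    have hd2s : d / d1 ∣ s := dvd_trans (Nat.div_dvd_of_dvd hd1'.1) hd
    set d2 := d / d1 with hd2
    set a := (U - 1) / d1 with ha
    set b := (2 * U - 1) / d1 with hb
    set a' := (V - 1) / d2 with ha'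
    set b' := (2 * V - 1) / d2 with hb'
    have hddR : (d1 : ℝ) * d2 = d := by exact_mod_cast hdd
    have hd1R : (1 : ℝ) ≤ d1 := by exact_mod_cast hd1p
    have hd2R : (1 : ℝ) ≤ d2 := by exact_mod_cast hd2p
    -- pass to the four terms
    have step1 : Ph (Finset.Ioc Q (2 * Q)) (fun q ψ =>
        ‖∑ x ∈ Finset.Ioc a b, ∑ z ∈ Finset.Ioc a' b',
          FF u d1 d2 ψ x * FF v d2 1 ψ z *
            ((wt j T ((d : ℝ) / ((q * s : ℕ) : ℝ) * x * z) : ℝ) : ℂ)‖) ≤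
        Ph (Finset.Ioc Q (2 * Q)) (fun q ψ =>
          D * (‖∑ y ∈ Finset.Ioc a b, FF u d1 d2 ψ y‖ * ‖∑ y ∈ Finset.Ioc a' b', FF v d2 1 ψ y‖) +
          ∑ z ∈ Finset.Ioc a' b', D * (1 / (z : ℝ)) *
            (‖∑ y ∈ Finset.Ioc a b, FF u d1 d2 ψ y‖ * ‖∑ y ∈ Finset.Ioc a' z, FF v d2 1 ψ y‖) +
          ∑ x ∈ Finset.Ioc a b, D * (1 / (x : ℝ)) *
            (‖∑ y ∈ Finset.Ioc a x, FF u d1 d2 ψ y‖ * ‖∑ y ∈ Finset.Ioc a' b', FF v d2 1 ψ y‖) +
          ∑ x ∈ Finset.Ioc a b, ∑ z ∈ Finset.Ioc a' b', D * (1 / (x : ℝ) * (1 / (z : ℝ))) *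
            (‖∑ y ∈ Finset.Ioc a x, FF u d1 d2 ψ y‖ *
              ‖∑ y ∈ Finset.Ioc a' z, FF v d2 1 ψ y‖)) := by
      refine Ph_mono _ _ _ (fun q hq ψ _ => ?_)
      rw [Finset.mem_Ioc] at hq
      have hqR1 : (Q : ℝ) ≤ q := by exact_mod_cast hq.1.le
      have hqR2 : (q : ℝ) ≤ 2 * Q := by exact_mod_cast hq.2
      have hq0 : (0 : ℝ) < q := by linarith
      rcases (Finset.Ioc a b).eq_empty_or_nonempty with he | hne
      · rw [he]; simp only [Finset.sum_empty, norm_zero, zero_mul, mul_zero,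
          Finset.sum_const_zero, add_zero, le_refl]
      rcases (Finset.Ioc a' b').eq_empty_or_nonempty with he' | hne'
      · rw [he']; simp only [Finset.sum_empty, norm_zero, zero_mul, mul_zero,
          Finset.sum_const_zero, add_zero, le_refl]
      have hab : a < b := Finset.nonempty_Ioc.1 hne
      have hab' : a' < b' := Finset.nonempty_Ioc.1 hne'
      have hbm := (range_mem U d1 b hU hd1p).1 (Finset.mem_Ioc.2 ⟨hab, le_rfl⟩)
      have hbm' := (range_mem V d2 b' hV hd2p).1 (Finset.mem_Ioc.2 ⟨hab', le_rfl⟩)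
      -- range of the argument
      have hcpos : 0 < (d : ℝ) / ((q * s : ℕ) : ℝ) := by
        have : (0 : ℝ) < d := by exact_mod_cast hd1
        push_cast
        positivity
      have cond : ∀ x z : ℕ, U ≤ d1 * x → d1 * x ≤ 4 * U → V ≤ d2 * z → d2 * z ≤ 4 * V →
          T / 1000 ≤ (d : ℝ) / ((q * s : ℕ) : ℝ) * x * z ∧
          (d : ℝ) / ((q * s : ℕ) : ℝ) * x * z ≤ 1000 * T := by
        intro x z h1 h2 h3 h4
        have h1' : (U : ℝ) ≤ d1 * x := by exact_mod_cast h1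
        have h2' : (d1 : ℝ) * x ≤ 4 * U := by exact_mod_cast h2
        have h3' : (V : ℝ) ≤ d2 * z := by exact_mod_cast h3
        have h4' : (d2 : ℝ) * z ≤ 4 * V := by exact_mod_cast h4
        have e : (d : ℝ) / ((q * s : ℕ) : ℝ) * x * z = ((d1 : ℝ) * x) * (d2 * z) / (q * s) := by
          rw [← hddR]; push_cast; ring
        have hqs : (0 : ℝ) < q * s := by positivity
        rw [e]
        have m1 : (U : ℝ) * V ≤ ((d1 : ℝ) * x) * (d2 * z) :=
          mul_le_mul h1' h3' (by positivity) (by positivity)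
        have m2 : ((d1 : ℝ) * x) * (d2 * z) ≤ (4 * U) * (4 * V) :=
          mul_le_mul h2' h4' (by positivity) (by positivity)
        have q1 : (q : ℝ) * s ≤ 2 * Q * s := mul_le_mul_of_nonneg_right hqR2 (by positivity)
        have q2 : (Q : ℝ) * s ≤ q * s := mul_le_mul_of_nonneg_right hqR1 (by positivity)
        constructor
        · rw [le_div_iff₀ hqs]
          have : T / 1000 * (q * s) ≤ T / 1000 * (2 * Q * s) :=
            mul_le_mul_of_nonneg_left q1 (by positivity)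
          have p0 : 0 ≤ (Q : ℝ) * s * T := by positivity
          nlinarith
        · rw [div_le_iff₀ hqs]
          have : 1000 * T * (Q * s) ≤ 1000 * T * (q * s) :=
            mul_le_mul_of_nonneg_left q2 (by positivity)
          have p0 : 0 ≤ (Q : ℝ) * s * T := by positivity
          nlinarith
      have hxr : ∀ x ∈ Finset.Ioc a b, 1 ≤ x ∧ U ≤ d1 * x ∧ d1 * x ≤ 4 * U ∧
          U ≤ d1 * (x + 1) ∧ d1 * (x + 1) ≤ 4 * U := by
        intro x hx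
        have h1 := (range_mem U d1 x hU hd1p).1 hx
        have h2 : 1 ≤ x := Nat.lt_of_le_of_lt (Nat.zero_le _) (Finset.mem_Ioc.1 hx).1
        have h3 : d1 * (x + 1) ≤ 2 * (d1 * x) := by
          have := Nat.mul_le_mul_left d1 h2
          linarith [Nat.mul_succ d1 x]
        have h4 : d1 * x ≤ d1 * (x + 1) := Nat.mul_le_mul_left d1 (by omega)
        exact ⟨h2, h1.1, by omega, by omega, by omega⟩
      have hzr : ∀ z ∈ Finset.Ioc a' b', 1 ≤ z ∧ V ≤ d2 * z ∧ d2 * z ≤ 4 * V ∧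
          V ≤ d2 * (z + 1) ∧ d2 * (z + 1) ≤ 4 * V := by
        intro x hx
        have h1 := (range_mem V d2 x hV hd2p).1 hx
        have h2 : 1 ≤ x := Nat.lt_of_le_of_lt (Nat.zero_le _) (Finset.mem_Ioc.1 hx).1
        have h3 : d2 * (x + 1) ≤ 2 * (d2 * x) := by
          have := Nat.mul_le_mul_left d2 h2
          linarith [Nat.mul_succ d2 x]
        have h4 : d2 * x ≤ d2 * (x + 1) := Nat.mul_le_mul_left d2 (by omega)
        exact ⟨h2, h1.1, by omega, by omega, by omega⟩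
      have hbr := hxr b (Finset.mem_Ioc.2 ⟨hab, le_rfl⟩)
      have hbr' := hzr b' (Finset.mem_Ioc.2 ⟨hab', le_rfl⟩)
      set c := (d : ℝ) / ((q * s : ℕ) : ℝ) with hc
      refine abel_block habl j T D c a b a' b' _ _ ?_ ?_ ?_ ?_
      · have := cond (b + 1) (b' + 1) hbr.2.2.2.1 hbr.2.2.2.2 hbr'.2.2.2.1 hbr'.2.2.2.2
        exact hw1 _ this.1 this.2
      · intro z hz
        have hz' := hzr z hz
        have c1 := cond (b + 1) z hbr.2.2.2.1 hbr.2.2.2.2 hz'.2.1 hz'.2.2.1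
        have c2 := cond (b + 1) (z + 1) hbr.2.2.2.1 hbr.2.2.2.2 hz'.2.2.2.1 hz'.2.2.2.2
        have := hw2 (c * ((b + 1 : ℕ) : ℝ)) z (by positivity) hz'.1 c1.1 (by
          have := c2.2
          push_cast at this ⊢
          exact this)
        rw [Nat.cast_add z 1, Nat.cast_one]
        exact this
      · intro x hx
        have hx' := hxr x hx
        have c1 := cond x (b' + 1) hx'.2.1 hx'.2.2.1 hbr'.2.2.2.1 hbr'.2.2.2.2
        have c2 := cond (x + 1) (b' + 1) hx'.2.2.2.1 hx'.2.2.2.2 hbr'.2.2.2.1 hbr'.2.2.2.2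
        have e1 : c * x * ((b' + 1 : ℕ) : ℝ) = c * ((b' + 1 : ℕ) : ℝ) * x := by ring
        have e2 : c * ((x + 1 : ℕ) : ℝ) * ((b' + 1 : ℕ) : ℝ) = c * ((b' + 1 : ℕ) : ℝ) * (x + 1) := by
          push_cast; ring
        rw [e1] at c1
        rw [e2] at c2
        rw [e1, e2]
        exact hw2 (c * ((b' + 1 : ℕ) : ℝ)) x (by positivity) hx'.1 c1.1 c2.2
      · intro x hx z hz
        have hx' := hxr x hx
        have hz' := hzr z hz
        have c1 := cond x z hx'.2.1 hx'.2.2.1 hz'.2.1 hz'.2.2.1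
        have c2 := cond (x + 1) (z + 1) hx'.2.2.2.1 hx'.2.2.2.2 hz'.2.2.2.1 hz'.2.2.2.2
        have := hw3 c x z hcpos hx'.1 hz'.1 c1.1 (by
          have := c2.2
          push_cast at this ⊢
          exact this)
        rw [Nat.cast_add x 1, Nat.cast_add z 1, Nat.cast_one]
        exact this
    refine le_trans step1 ?_
    -- the large sieve
    set A := P * (2 * ((U : ℝ) / d1)) with hA
    set B := P * (2 * ((V : ℝ) / d2)) with hB
    have hAs : ∑ k ∈ Finset.Icc 1 b, (u (d1 * k)) ^ 2 ≤ A :=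
      l2_block hdiv K L hL u hub U d1 s hU hd1p hs (dvd_trans hd1'.1 hd) hlogU
    have hBs : ∑ k ∈ Finset.Icc 1 b', (v (d2 * k)) ^ 2 ≤ B :=
      l2_block hdiv K L hL v hvb V d2 s hV hd2p hs hd2s hlogV
    set R := 1 / ((Q : ℝ) * Real.sqrt Q) *
      Real.sqrt (((4 * (Q : ℝ) ^ 2 + 4 * Real.pi * ((b + 1 : ℕ) : ℝ)) * A) *
        ((4 * (Q : ℝ) ^ 2 + 4 * Real.pi * ((b' + 1 : ℕ) : ℝ)) * B)) with hR
    have hR0 : 0 ≤ R := by positivity
    refine le_trans (Ph_block (Finset.Ioc Q (2 * Q)) D R hD0 hR0 a b a' b'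
      (fun q ψ => FF u d1 d2 ψ) (fun q ψ => FF v d2 1 ψ)
      (harm_dyadic U d1 hU hd1p) (harm_dyadic V d2 hV hd2p)
      (fun x z hx hz => Ph_partial Q hQ u v d1 d2 a b a' b' x z hx hz A B hAs hBs)) ?_
    refine mul_le_mul_of_nonneg_left ?_ (by positivity)
    -- the final estimate
    have hπ : 3 < Real.pi := Real.pi_gt_three
    have hbnd : ∀ (W dd : ℕ), 1 ≤ dd → 4 * (Q : ℝ) ^ 2 +
        4 * Real.pi * (((2 * W - 1) / dd + 1 : ℕ) : ℝ) ≤ 16 * Real.pi * ((Q : ℝ) ^ 2 + (W : ℝ) / dd) := by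
      intro W dd hdd1
      have hdd1' : (0 : ℝ) < dd := by exact_mod_cast hdd1
      have h1 : (((2 * W - 1) / dd : ℕ) : ℝ) ≤ 2 * ((W : ℝ) / dd) := by
        have h1 : (2 * W - 1) / dd * dd ≤ 2 * W - 1 := Nat.div_mul_le_self _ _
        have h2 : (2 * W - 1) / dd * dd ≤ 2 * W := by omega
        have h3 : (((2 * W - 1) / dd : ℕ) : ℝ) * dd ≤ 2 * W := by exact_mod_cast h2
        rw [mul_div_assoc', le_div_iff₀ hdd1']
        exact h3
      have hQ2 : (1 : ℝ) ≤ (Q : ℝ) ^ 2 := by nlinarith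
      have hW0 : 0 ≤ (W : ℝ) / dd := by positivity
      push_cast
      push_cast at h1
      nlinarith
    have hX1 := hbnd U d1 hd1p
    have hX2 := hbnd V d2 hd2p
    rw [← hb] at hX1
    rw [← hb'] at hX2
    have hA0 : 0 ≤ A := by positivity
    have hB0 : 0 ≤ B := by positivity
    rw [hR]
    have e1 : 32 * Real.pi * P * (1 / ((Q : ℝ) * Real.sqrt Q) *
        Real.sqrt (((Q : ℝ) ^ 2 + (U : ℝ) / d1) *
              ((Q : ℝ) ^ 2 + (V : ℝ) / (d2 : ℝ)) * ((U : ℝ) * V / d))) =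
        1 / ((Q : ℝ) * Real.sqrt Q) * Real.sqrt ((32 * Real.pi * P) ^ 2 *
          (((Q : ℝ) ^ 2 + (U : ℝ) / d1) *
              ((Q : ℝ) ^ 2 + (V : ℝ) / (d2 : ℝ)) * ((U : ℝ) * V / d))) := by
      rw [Real.sqrt_mul (show (0 : ℝ) ≤ (32 * Real.pi * P) ^ 2 by positivity),
        Real.sqrt_sq (show (0 : ℝ) ≤ 32 * Real.pi * P by positivity)]
      ring
    rw [e1]
    refine mul_le_mul_of_nonneg_left (Real.sqrt_le_sqrt ?_) (by positivity)
    calc ((4 * (Q : ℝ) ^ 2 + 4 * Real.pi * ((b + 1 : ℕ) : ℝ)) * A) *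
          ((4 * (Q : ℝ) ^ 2 + 4 * Real.pi * ((b' + 1 : ℕ) : ℝ)) * B)
        ≤ ((16 * Real.pi * ((Q : ℝ) ^ 2 + (U : ℝ) / d1)) * A) *
          ((16 * Real.pi * ((Q : ℝ) ^ 2 + (V : ℝ) / d2)) * B) := by
          refine mul_le_mul (mul_le_mul_of_nonneg_right hX1 hA0)
            (mul_le_mul_of_nonneg_right hX2 hB0) (by positivity) (by positivity)
      _ = (32 * Real.pi * P) ^ 2 * (((Q : ℝ) ^ 2 + (U : ℝ) / d1) *
              ((Q : ℝ) ^ 2 + (V : ℝ) / (d2 : ℝ)) * ((U : ℝ) * V / d)) := by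
          rw [hA, hB, ← hddR]
          field_simp
          ring
  -- sum over `d1`
  have hsum : QQ j T (u * v) s d (Finset.Ioc Q (2 * Q)) ≤ ∑ d1 ∈ d.divisors,
      9 * D * (32 * Real.pi * P * (1 / ((Q : ℝ) * Real.sqrt Q) *
        Real.sqrt (((Q : ℝ) ^ 2 + (U : ℝ) / d1) *
              ((Q : ℝ) ^ 2 + (V : ℝ) / ((d / d1 : ℕ) : ℝ)) * ((U : ℝ) * V / d)))) := by
    rw [QQ_eq_Ph]
    refine le_trans ?_ (Finset.sum_le_sum key)
    rw [← Ph_sum]
    refine Ph_mono _ _ _ (fun q hq ψ _ => ?_)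
    rw [VV_block hspl j T u v q s d U V hd1 hU hV hu hv hN ψ]
    refine le_trans (norm_sum_le _ _) (Finset.sum_le_sum (fun d1 _ => ?_))
    rw [norm_mul]
    calc ‖ψ (d : ZMod q)‖ * _ ≤ 1 * _ :=
          mul_le_mul_of_nonneg_right (DirichletCharacter.norm_le_one ψ _) (norm_nonneg _)
      _ = _ := one_mul _
  refine le_trans hsum ?_
  rw [← Finset.mul_sum, ← Finset.mul_sum]
  have hS0 : 0 ≤ ∑ d1 ∈ d.divisors, 1 / ((Q : ℝ) * Real.sqrt Q) *
        Real.sqrt (((Q : ℝ) ^ 2 + (U : ℝ) / d1) *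
              ((Q : ℝ) ^ 2 + (V : ℝ) / ((d / d1 : ℕ) : ℝ)) * ((U : ℝ) * V / d)) :=
    Finset.sum_nonneg (fun _ _ => by positivity)
  rw [← mul_assoc]
  refine mul_le_mul_of_nonneg_right ?_ hS0
  have hdvs : 1 ≤ dv s := one_le_dv s hs
  have hdvpow : dv s ^ (2 * K) ≤ dv s ^ (M0 + 2 * K + E) :=
    pow_le_pow_right₀ hdvs (Nat.le_trans (Nat.le_add_left (2 * K) M0) (Nat.le_add_right _ _))
  rw [hD, hP]
  calc 9 * (C0 * L ^ M0) * (32 * Real.pi * (L ^ (2 * K) * dv s ^ (2 * K) * (3 * L) ^ E))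
      = 9 * C0 * (32 * Real.pi) * 3 ^ E * L ^ (M0 + 2 * K + E) * dv s ^ (2 * K) := by
        rw [mul_pow]; ring
    _ ≤ 9 * C0 * (32 * Real.pi) * 3 ^ E * L ^ (M0 + 2 * K + E) * dv s ^ (M0 + 2 * K + E) :=
        mul_le_mul_of_nonneg_left hdvpow (by positivity)

end Pool.Agent.Lib.MP_6bc78b_nt.MS.P2
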