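import Pool.Agent.Lib.MP_6bc78b_nt.MS.P2.Ph

/-! Project MS, Part II, module TOP (helper88): `NPStatement` from RED, DEC and LOW. -/

set_option autoImplicit false

open Filter Topology ArithmeticFunction

namespace Pool.Agent.Lib.MP_6bc78b_nt.MS.P2

open Pool.Agent.Lib.MP_6bc78b_nt.LS (primSum primSum_nonneg)

theorem top (_h1 : DivStatement) (h2 : RedStatement) (h3 : DecStatement) (h4 : LowStatement) :
    NPStatement := by
  intro th lam c1 c2 hth hth2 hlam hlam2 α hα j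
  obtain ⟨C, hC⟩ := h2 th lam c1 c2 hth hth2 hlam hlam2 α hα j
  obtain ⟨A0, hA0⟩ := h3 th lam c1 c2 hth hth2 hlam hlam2 α hα j
  have hbig := hA0 A0 le_rfl
  have hlow := h4 th lam c1 c2 hth hth2 hlam hlam2 α hα j A0
  have hinv : Tendsto (fun T : ℝ => 1 / T) atTop (𝓝 0) := by
    simpa using tendsto_inv_atTop_zero (𝕜 := ℝ)
  have hsum : Tendsto (fun T : ℝ => |C| * (1 / T +
      (EE th j T 1 ⌊Real.log T ^ A0⌋₊ (α T) / T +
        EE th j T ⌊Real.log T ^ A0⌋₊ ⌊T ^ th⌋₊ (α T) / T))) atTop (𝓝 0) := by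
    have := (hinv.add (hlow.add hbig)).const_mul |C|
    simpa using this
  refine squeeze_zero_norm' ?_ hsum
  filter_upwards [hC, eventually_gt_atTop (0 : ℝ)] with T hT hT0
  rw [norm_div, Complex.norm_real, Real.norm_of_nonneg hT0.le]
  have hE := EE_split th j T 1 ⌊Real.log T ^ A0⌋₊ ⌊T ^ th⌋₊ (α T)
  have hE0 := EE_nonneg th j T 1 ⌊T ^ th⌋₊ (α T)
  have h5 : C * (1 + EE th j T 1 ⌊T ^ th⌋₊ (α T)) ≤
      |C| * (1 + (EE th j T 1 ⌊Real.log T ^ A0⌋₊ (α T) +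
        EE th j T ⌊Real.log T ^ A0⌋₊ ⌊T ^ th⌋₊ (α T))) :=
    mul_le_mul (le_abs_self C) (by linarith) (by linarith) (abs_nonneg C)
  have h6 := div_le_div_of_nonneg_right (hT.trans h5) hT0.le
  refine h6.trans (le_of_eq ?_)
  field_simp

end Pool.Agent.Lib.MP_6bc78b_nt.MS.P2
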