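import Pool.Agent.Lib.MP_6bc78b_nt.MS.P2.H18.ABL
import Pool.Agent.Lib.MP_6bc78b_nt.MS.P2.H18.WTD
import Pool.Agent.Lib.MP_6bc78b_nt.MS.P2.H18.WTT
import Pool.Agent.Lib.MP_6bc78b_nt.MS.P2.H18.WTV
import Pool.Agent.Lib.MP_6bc78b_nt.MS.P2.H33.Rgb
import Pool.Agent.Lib.MP_6bc78b_nt.MS.P2.H33.Spl
import Pool.Agent.Lib.MP_6bc78b_nt.MS.P2.H6.Smo
import Pool.Agent.Lib.MP_6bc78b_nt.MS.P2.H64.Div
import Pool.Agent.Lib.MP_6bc78b_nt.MS.P2.H67.Red
import Pool.Agent.Lib.MP_6bc78b_nt.MS.P2.H75.Edg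
import Pool.Agent.Lib.MP_6bc78b_nt.MS.P2.H75.Low
import Pool.Agent.Lib.MP_6bc78b_nt.MS.P2.H75.Pol
import Pool.Agent.Lib.MP_6bc78b_nt.MS.P2.H84.Dec
import Pool.Agent.Lib.MP_6bc78b_nt.MS.P2.H94.Dbc
import Pool.Agent.Lib.MP_6bc78b_nt.MS.P2.H94.Vau
import Pool.Agent.Lib.MP_6bc78b_nt.MS.P2.TOP
import Pool.Agent.Lib.MP_6bc78b_nt.MS.P2.BLK

/-! Project MS, Part II: assembly, with the missing modules as hypotheses. -/

set_option autoImplicit false

namespace Pool.Agent.Lib.MP_6bc78b_nt.MS.P2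

/-- Assembly of Part II. -/
theorem np_of (hbil : DivStatement → WttStatement → BlkStatement → BilStatement)
    (hrgm : DivStatement → SplStatement → RgmStatement)
    (hrgc : DivStatement → SplStatement → AblStatement → WtdStatement → WttStatement →
      RgcStatement)
    (hpvc : PvcStatement) (hchb : SW.ChbStatement) (hsw : SW.SwStatement) : NPStatement :=
  top H64.div (H67.red H18.wtt H75.pol)
    (H84.dec H94.dbc H94.vau
      (hbil H64.div H18.wtt (blk H64.div spl H18.abl H18.wtd))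
      (smo H64.div spl H18.abl H18.wtt (H18.wtv H18.wtd H18.wtt) hpvc)
      (H75.edg H18.wtt))
    (H75.low H64.div H94.dbc (rgb hchb hsw) (hrgm H64.div spl)
      (hrgc H64.div spl H18.abl H18.wtd H18.wtt))

end Pool.Agent.Lib.MP_6bc78b_nt.MS.P2
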